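import Mathlib.Analysis.SpecialFunctions.Pow.NNReal
import Mathlib.Analysis.SpecialFunctions.Pow.Continuity
import Mathlib.Topology.Algebra.InfiniteSum.ENNReal
import Mathlib.Tactic

set_option autoImplicit false

/-!
# A set with fewer dilate sums than sums

There is a finite set `S` of integers with `|S + 2·S| < |S + S|`, and hence its indicator function
`α` satisfies `‖α + 2·α‖ < ‖α + α‖`. The set consists of the elements of `{0, …, 840 L - 1}` lying
in certain residue classes modulo `840 = 56 · 15`.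
-/

namespace Pool.Agent.Results.MP_6c466c_co.FewerDilateSums

open scoped ENNReal NNReal

/-- `‖α + m·α‖ = inf_{0<p<1} ∑_i (∑_{j + m k = i} α(j) α(k))^p`, with values in `[0, ∞]`. -/
noncomputable def dilateNorm (m : ℤ) (α : ℤ → ℝ≥0) : ℝ≥0∞ :=
  ⨅ p ∈ Set.Ioo (0 : ℝ) 1, ∑' i : ℤ, (∑' k : ℤ, (α (i - m * k) : ℝ≥0∞) * (α k : ℝ≥0∞)) ^ p

/-! ### The sets -/

/-- the residue condition defining the set -/
def P (x : ℤ) : Prop :=
  (x % 2 = 0 ∨ x % 56 = 1) ∧ (x % 15 = 0 ∨ x % 15 = 1 ∨ x % 15 = 3 ∨ x % 15 = 5 ∨ x % 15 = 6 ∨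
    x % 15 = 10 ∨ x % 15 = 11)

instance : DecidablePred P := fun _ => by unfold P; infer_instance

/-- the residue condition satisfied by `s + 2 t` -/
def Q (x : ℤ) : Prop := (x % 2 = 0 ∨ x % 4 = 1 ∨ x % 56 = 3) ∧ x % 15 ≠ 4 ∧ x % 15 ≠ 14

instance : DecidablePred Q := fun _ => by unfold Q; infer_instance

theorem P_add_two_mul {s t : ℤ} (hs : P s) (ht : P t) : Q (s + 2 * t) := by
  obtain ⟨hs1, hs2⟩ := hs
  obtain ⟨ht1, ht2⟩ := ht
  refine ⟨?_, ?_⟩
  · clear hs2 ht2
    omega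
  · clear hs1 ht1
    rcases hs2 with h | h | h | h | h | h | h <;> rcases ht2 with h' | h' | h' | h' | h' | h' | h' <;>
      constructor <;> omega

theorem exists_P (x : ℤ) : ∃ a : ℤ, 0 ≤ a ∧ a < 840 ∧ P a ∧ P (x - a) := by
  have hx : x % 30 = 0 ∨ x % 30 = 1 ∨ x % 30 = 2 ∨ x % 30 = 3 ∨ x % 30 = 4 ∨ x % 30 = 5 ∨ x % 30 = 6 ∨ x % 30 = 7 ∨ x % 30 = 8 ∨ x % 30 = 9 ∨ x % 30 = 10 ∨ x % 30 = 11 ∨ x % 30 = 12 ∨ x % 30 = 13 ∨ x % 30 = 14 ∨ x % 30 = 15 ∨ x % 30 = 16 ∨ x % 30 = 17 ∨ x % 30 = 18 ∨ x % 30 = 19 ∨ x % 30 = 20 ∨ x % 30 = 21 ∨ x % 30 = 22 ∨ x % 30 = 23 ∨ x % 30 = 24 ∨ x % 30 = 25 ∨ x % 30 = 26 ∨ x % 30 = 27 ∨ x % 30 = 28 ∨ x % 30 = 29 := by omega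
  rcases hx with h | h | h | h | h | h | h | h | h | h | h | h | h | h | h | h | h | h | h | h | h | h | h | h | h | h | h | h | h | h
  · exact ⟨0, by norm_num, by norm_num, by decide, by unfold P; omega⟩
  · exact ⟨1, by norm_num, by norm_num, by decide, by unfold P; omega⟩
  · exact ⟨6, by norm_num, by norm_num, by decide, by unfold P; omega⟩
  · exact ⟨225, by norm_num, by norm_num, by decide, by unfold P; omega⟩
  · exact ⟨16, by norm_num, by norm_num, by decide, by unfold P; omega⟩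
  · exact ⟨225, by norm_num, by norm_num, by decide, by unfold P; omega⟩
  · exact ⟨0, by norm_num, by norm_num, by decide, by unfold P; omega⟩
  · exact ⟨1, by norm_num, by norm_num, by decide, by unfold P; omega⟩
  · exact ⟨18, by norm_num, by norm_num, by decide, by unfold P; omega⟩
  · exact ⟨393, by norm_num, by norm_num, by decide, by unfold P; omega⟩
  · exact ⟨0, by norm_num, by norm_num, by decide, by unfold P; omega⟩
  · exact ⟨1, by norm_num, by norm_num, by decide, by unfold P; omega⟩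
  · exact ⟨6, by norm_num, by norm_num, by decide, by unfold P; omega⟩
  · exact ⟨393, by norm_num, by norm_num, by decide, by unfold P; omega⟩
  · exact ⟨18, by norm_num, by norm_num, by decide, by unfold P; omega⟩
  · exact ⟨225, by norm_num, by norm_num, by decide, by unfold P; omega⟩
  · exact ⟨0, by norm_num, by norm_num, by decide, by unfold P; omega⟩
  · exact ⟨1, by norm_num, by norm_num, by decide, by unfold P; omega⟩
  · exact ⟨0, by norm_num, by norm_num, by decide, by unfold P; omega⟩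
  · exact ⟨1, by norm_num, by norm_num, by decide, by unfold P; omega⟩
  · exact ⟨0, by norm_num, by norm_num, by decide, by unfold P; omega⟩
  · exact ⟨1, by norm_num, by norm_num, by decide, by unfold P; omega⟩
  · exact ⟨6, by norm_num, by norm_num, by decide, by unfold P; omega⟩
  · exact ⟨393, by norm_num, by norm_num, by decide, by unfold P; omega⟩
  · exact ⟨6, by norm_num, by norm_num, by decide, by unfold P; omega⟩
  · exact ⟨225, by norm_num, by norm_num, by decide, by unfold P; omega⟩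
  · exact ⟨0, by norm_num, by norm_num, by decide, by unfold P; omega⟩
  · exact ⟨1, by norm_num, by norm_num, by decide, by unfold P; omega⟩
  · exact ⟨10, by norm_num, by norm_num, by decide, by unfold P; omega⟩
  · exact ⟨281, by norm_num, by norm_num, by decide, by unfold P; omega⟩

/-- the set -/
noncomputable def S (L : ℕ) : Finset ℤ := (Finset.Ico (0 : ℤ) (840 * L)).filter P

theorem mem_S {L : ℕ} {x : ℤ} : x ∈ S L ↔ (0 ≤ x ∧ x < 840 * L) ∧ P x := by
  simp [S]

/-- the sumset `S + m·S` -/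
def sums (m : ℤ) (S : Finset ℤ) : Finset ℤ := (S ×ˢ S).image (fun p => p.1 + m * p.2)

theorem mem_sums {m : ℤ} {S : Finset ℤ} {x : ℤ} :
    x ∈ sums m S ↔ ∃ s ∈ S, ∃ t ∈ S, s + m * t = x := by
  unfold sums
  rw [Finset.mem_image]
  constructor
  · rintro ⟨p, hp, rfl⟩
    rw [Finset.mem_product] at hp
    exact ⟨p.1, hp.1, p.2, hp.2, rfl⟩
  · rintro ⟨s, hs, t, ht, rfl⟩
    exact ⟨(s, t), Finset.mem_product.mpr ⟨hs, ht⟩, rfl⟩

theorem P_add_mul (x q : ℤ) : P (x + 840 * q) ↔ P x := by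
  unfold P
  constructor <;> rintro ⟨h1, h2⟩ <;> constructor <;> omega

theorem card_sums_one (L : ℕ) (hL : 3 ≤ L) : 840 * (2 * L - 2) - 1677 ≤ ((sums 1 (S L)).card : ℤ) := by
  have hsub : Finset.Ico (1678 : ℤ) (840 * (2 * L - 2) + 1) ⊆ sums 1 (S L) := by
    intro x hx
    rw [Finset.mem_Ico] at hx
    obtain ⟨a, ha0, ha1, hPa, hPx⟩ := exists_P x
    rw [mem_sums]
    -- `x = a + b + 840 q`
    obtain ⟨b, q, hb0, hb1, hbq⟩ : ∃ b q : ℤ, 0 ≤ b ∧ b < 840 ∧ x - a = b + 840 * q :=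
      ⟨(x - a) % 840, (x - a) / 840, by omega, by omega, by omega⟩
    have hPb : P b := by
      rw [hbq, P_add_mul] at hPx
      exact hPx
    by_cases hq : q < L
    · refine ⟨a, ?_, b + 840 * q, ?_, by omega⟩
      · rw [mem_S]
        exact ⟨⟨ha0, by omega⟩, hPa⟩
      · rw [mem_S, P_add_mul]
        exact ⟨⟨by omega, by omega⟩, hPb⟩
    · refine ⟨a + 840 * (q - (L - 1)), ?_, b + 840 * (L - 1), ?_, by omega⟩
      · rw [mem_S, P_add_mul]
        exact ⟨⟨by omega, by omega⟩, hPa⟩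
      · rw [mem_S, P_add_mul]
        exact ⟨⟨by omega, by omega⟩, hPb⟩
  have h := Finset.card_le_card hsub
  rw [Int.card_Ico] at h
  omega

theorem card_Q : ((Finset.Ico (0 : ℤ) 840).filter Q).card = 559 := by
  decide +kernel

theorem Q_emod (x : ℤ) (h : Q x) : Q (x % 840) := by
  obtain ⟨h1, h2⟩ := h
  exact ⟨by omega, by omega⟩

theorem card_sums_two (L : ℕ) : (sums 2 (S L)).card ≤ 1677 * L := by
  have h : (sums 2 (S L)).card ≤
      ((Finset.Ico (0 : ℤ) (3 * L)) ×ˢ ((Finset.Ico (0 : ℤ) 840).filter Q)).card := by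
    apply Finset.card_le_card_of_injOn (fun x => (x / 840, x % 840))
    · intro x hx
      have hx' := mem_sums.mp (Finset.mem_coe.mp hx)
      obtain ⟨s, hs, t, ht, rfl⟩ := hx'
      rw [mem_S] at hs ht
      have hQ := Q_emod _ (P_add_two_mul hs.2 ht.2)
      simp only [Finset.coe_product, Set.mem_prod, Finset.mem_coe, Finset.mem_Ico,
        Finset.mem_filter]
      refine ⟨⟨?_, ?_⟩, ⟨?_, ?_⟩, hQ⟩
      · omega
      · omega
      · omega
      · omega
    · intro x _ y _ hxy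
      have h1 := congrArg Prod.fst hxy
      have h2 := congrArg Prod.snd hxy
      simp only at h1 h2
      omega
  rw [Finset.card_product, card_Q, Int.card_Ico] at h
  omega

/-! ### The norms -/

/-- the indicator function of a finite set -/
noncomputable def ind (S : Finset ℤ) : ℤ → ℝ≥0 := fun i => if i ∈ S then 1 else 0

theorem inner_le (m : ℤ) (S : Finset ℤ) (i : ℤ) :
    (∑' k : ℤ, (ind S (i - m * k) : ℝ≥0∞) * (ind S k : ℝ≥0∞)) ≤ (S.card : ℝ≥0∞) := by
  rw [tsum_eq_sum (s := S)]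
  · calc ∑ k ∈ S, (ind S (i - m * k) : ℝ≥0∞) * (ind S k : ℝ≥0∞) ≤ ∑ k ∈ S, (1 : ℝ≥0∞) := by
          apply Finset.sum_le_sum
          intro k _
          unfold ind
          split_ifs <;> simp
      _ = S.card := by simp
  · intro k hk
    simp [ind, hk]

theorem one_le_inner (m : ℤ) (S : Finset ℤ) (i : ℤ) (hi : i ∈ sums m S) :
    1 ≤ (∑' k : ℤ, (ind S (i - m * k) : ℝ≥0∞) * (ind S k : ℝ≥0∞)) := by
  obtain ⟨s, hs, t, ht, rfl⟩ := mem_sums.mp hi
  have := ENNReal.le_tsum (f := fun k : ℤ =>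
    (ind S (s + m * t - m * k) : ℝ≥0∞) * (ind S k : ℝ≥0∞)) t
  refine le_trans ?_ this
  simp [ind, hs, ht]

theorem inner_eq_zero (m : ℤ) (S : Finset ℤ) (i : ℤ) (hi : i ∉ sums m S) :
    (∑' k : ℤ, (ind S (i - m * k) : ℝ≥0∞) * (ind S k : ℝ≥0∞)) = 0 := by
  rw [ENNReal.tsum_eq_zero]
  intro k
  by_cases hk : k ∈ S
  · have : i - m * k ∉ S := by
      intro h
      exact hi (mem_sums.mpr ⟨_, h, k, hk, by ring⟩)
    simp [ind, this]
  · simp [ind, hk]

theorem card_le_dilateNorm (m : ℤ) (S : Finset ℤ) :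
    ((sums m S).card : ℝ≥0∞) ≤ dilateNorm m (ind S) := by
  unfold dilateNorm
  refine le_iInf₂ fun p hp => ?_
  calc ((sums m S).card : ℝ≥0∞) = ∑ i ∈ sums m S, (1 : ℝ≥0∞) := by simp
    _ ≤ ∑ i ∈ sums m S, (∑' k : ℤ, (ind S (i - m * k) : ℝ≥0∞) * (ind S k : ℝ≥0∞)) ^ p := by
        apply Finset.sum_le_sum
        intro i hi
        exact ENNReal.one_le_rpow (one_le_inner m S i hi) hp.1
    _ ≤ _ := ENNReal.sum_le_tsum _

theorem dilateNorm_le (m : ℤ) (S : Finset ℤ) (p : ℝ) (hp : p ∈ Set.Ioo (0 : ℝ) 1) :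
    dilateNorm m (ind S) ≤ (sums m S).card * (S.card : ℝ≥0∞) ^ p := by
  unfold dilateNorm
  refine le_trans (iInf₂_le p hp) ?_
  rw [tsum_eq_sum (s := sums m S)]
  · calc ∑ i ∈ sums m S, (∑' k : ℤ, (ind S (i - m * k) : ℝ≥0∞) * (ind S k : ℝ≥0∞)) ^ p
        ≤ ∑ i ∈ sums m S, (S.card : ℝ≥0∞) ^ p := by
          apply Finset.sum_le_sum
          intro i _
          exact ENNReal.rpow_le_rpow (inner_le m S i) hp.1.le
      _ = _ := by simp
  · intro i hi
    rw [inner_eq_zero m S i hi]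
    exact ENNReal.zero_rpow_of_pos hp.1

/-- small powers of a constant are close to `1` -/
theorem exists_rpow_lt (a b c : ℕ) (hab : a < b) (hc : 0 < c) :
    ∃ p ∈ Set.Ioo (0 : ℝ) 1, (a : ℝ≥0∞) * (c : ℝ≥0∞) ^ p < b := by
  have hcr : (0 : ℝ) < c := by exact_mod_cast hc
  have h1 : Filter.Tendsto (fun p : ℝ => (a : ℝ) * (c : ℝ) ^ p) (nhds 0)
      (nhds ((a : ℝ) * (c : ℝ) ^ (0 : ℝ))) :=
    (Filter.Tendsto.const_mul _
      (Real.continuousAt_const_rpow (a := (c : ℝ)) (b := 0) hcr.ne').tendsto)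
  have h2 : (a : ℝ) * (c : ℝ) ^ (0 : ℝ) < b := by
    rw [Real.rpow_zero, mul_one]
    exact_mod_cast hab
  have h3 := (h1.eventually (gt_mem_nhds h2))
  rw [Metric.eventually_nhds_iff] at h3
  obtain ⟨ε, hε, h⟩ := h3
  have hp0 : 0 < min (ε / 2) (1 / 2) := by positivity
  refine ⟨min (ε / 2) (1 / 2), ⟨hp0, ?_⟩, ?_⟩
  · exact lt_of_le_of_lt (min_le_right _ _) (by norm_num)
  · have h4 : (a : ℝ) * (c : ℝ) ^ (min (ε / 2) (1 / 2)) < b := by
      apply h
      rw [Real.dist_eq, sub_zero, abs_of_pos hp0]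
      exact lt_of_le_of_lt (min_le_left _ _) (by linarith)
    have e : (a : ℝ≥0∞) * (c : ℝ≥0∞) ^ (min (ε / 2) (1 / 2)) =
        ENNReal.ofReal ((a : ℝ) * (c : ℝ) ^ (min (ε / 2) (1 / 2))) := by
      rw [ENNReal.ofReal_mul (Nat.cast_nonneg _), ENNReal.ofReal_natCast,
        ← ENNReal.ofReal_rpow_of_pos hcr, ENNReal.ofReal_natCast]
    rw [e, ← ENNReal.ofReal_natCast b]
    exact (ENNReal.ofReal_lt_ofReal_iff (by
      have : (0 : ℝ) < b := by
        have : 0 < b := by omega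
        exact_mod_cast this
      exact this)).mpr h4

/-- There is a function `α : ℤ → [0,1]` with finite sum (namely, the indicator function of a finite
set `S`) such that `‖α + 2·α‖ < ‖α + α‖`. -/
theorem result : ∃ (S : Finset ℤ) (α : ℤ → ℝ≥0), (∀ i, α i = if i ∈ S then 1 else 0) ∧
    (∀ i, α i ≤ 1) ∧ Summable α ∧ dilateNorm 2 α < dilateNorm 1 α := by
  refine ⟨S 1200, ind (S 1200), fun _ => rfl, ?_, ?_, ?_⟩
  · intro i
    unfold ind
    split_ifs
    · exact le_refl _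
    · exact zero_le_one
  · apply summable_of_finite_support
    refine (S 1200).finite_toSet.subset ?_
    intro i hi
    by_contra h
    exact hi (by simp only [ind, Finset.mem_coe] at h ⊢; rw [if_neg h])
  · have h1 := card_sums_one 1200 (by norm_num)
    have h2 := card_sums_two 1200
    have hlt : (sums 2 (S 1200)).card < (sums 1 (S 1200)).card := by
      push_cast at h1
      omega
    have hpos : 0 < (S 1200).card := by
      apply Finset.card_pos.mpr
      exact ⟨0, mem_S.mpr ⟨⟨le_refl _, by norm_num⟩, by decide⟩⟩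
    obtain ⟨p, hp, h⟩ := exists_rpow_lt _ _ (S 1200).card hlt hpos
    exact lt_of_le_of_lt (dilateNorm_le 2 _ p hp) (lt_of_lt_of_le h (card_le_dilateNorm 1 _))

end Pool.Agent.Results.MP_6c466c_co.FewerDilateSums
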